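import Pool.Agent.TH265.U.Main
set_option autoImplicit false

/-!
Beilinson's conjecture on regulators, `i = 1`, `n = 2`, for curves over number fields: two
archimedean places at once.
-/

namespace Pool.Agent.Results.MP_15b3df_nt.ClassesFromUnits

open Pool.Agent.TH826.MH (eqn)

open Pool.Agent.TH265.U

universe u v

/-- Let `N = p + 1` and `r ≥ 1`. There is a constant `c > 1` with the following property. Let `K`
be a number field with a primitive `N`-th root of unity `ζ`, let `σ` and `τ` be complex embeddings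
of `K` and let `e` be a unit of the ring of integers of `K` with `|σ e| ≥ c` and `|τ e| ≤ 1 / c`.
Then the curve `(1 - y^N) ∏_{i ≤ r} (1 - e^(-i) x) = 1` (of bidegree `(N, r + 1)`, genus
`r (N - 1)`) has a coordinate ring `A` which is a domain, and it is smooth; the `(r + 1) (N - 1)`
symbols `{(y - ζ^j) / (y - ζ^(j+1)), (x - e^i) / x}`, `0 ≤ j < N - 1`, `0 ≤ i ≤ r`, in `K_2` of
`A[1/x]` are unramified at all discrete valuations of the function field; and there are
`(r + 1) (N - 1)` loops in the complex points, `N - 1` of them over `τ` and `r (N - 1)` over `σ`,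
such that the determinant of the regulators of the symbols on the loops does not vanish.
Moreover for every unit `e₀` which is not a root of unity there are `σ` and `τ` such that
`e = e₀^m` satisfies the condition for all large `m`. -/
theorem result (p r : ℕ) (hr : 1 ≤ r) :
    ∃ c : ℝ, 1 < c ∧
      (∀ (K : Type u) [Field K] [NumberField K] (σ τ : K →+* ℂ) (ζ e : K),
        IsPrimitiveRoot ζ (p + 1) → IsIntegral ℤ e → IsIntegral ℤ e⁻¹ →
        c ≤ ‖σ e‖ → ‖τ e‖ * c ≤ 1 →
        eqn (lm r e) (rts p r ζ e) = poly p r e ∧ IsDomain (Crv p r ζ e) ∧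
        Smooth (poly p r e) σ ∧ UnramifiedSymbols.{u, v} p r ζ e ∧
        IndependentRegulators p r ζ e σ τ) ∧
      ∀ (K : Type u) [Field K] [NumberField K] (e₀ : K), IsIntegral ℤ e₀ → IsIntegral ℤ e₀⁻¹ →
        e₀ ≠ 0 → (∀ n : ℕ, 0 < n → e₀ ^ n ≠ 1) →
        ∃ (σ τ : K →+* ℂ) (M : ℕ), ∀ m ≥ M, c ≤ ‖σ (e₀ ^ m)‖ ∧ ‖τ (e₀ ^ m)‖ * c ≤ 1 :=
  main p r hr

end Pool.Agent.Results.MP_15b3df_nt.ClassesFromUnits
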