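import Pool.Agent.TH690.SF.Smooth
set_option autoImplicit false

/-!
Unramified classes with independent regulators in the Milnor K-theory of fibrations over the affine
space in Calabi-Yau varieties and in other varieties mirror to weighted hypersurfaces: on the
varieties `z + y_1 + ... + y_q + 1/(z y_1 ^ v_1 ... y_q ^ v_q) = λ ∏_e L_e`, `q ≥ 1`, `v_i ≥ 1`, of
dimension `n + 1 + q`, the `L_e` being `m + 1` affine forms in `n + 1` variables in general position
with integral coefficients and unit maximal minors, there are `binom(m, n + 1)` unramified classes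
with linearly independent regulators, for all large integers `λ`.  For `v_i = 1` the fibres over the
affine space are the members of the pencil `z + y_1 + ... + y_q + 1/(z y_1 ... y_q) = t` of
Calabi-Yau varieties of dimension `q` (elliptic curves, K3 surfaces, ...) mirror to the Dwork
pencil.
-/

namespace Pool.Agent.Results.MP_15b3df_nt.SimplexFibrations

open Pool.Agent.TH826.GA (Unimod)

open Pool.Agent.TH690.SF

/-- Let `q ≥ 1` (below `q + 1` is written for `q`), let `v_i = w_i + 1 ≥ 1`, `i = 1, ..., q`, be
arbitrary integers, let `n + 1 ≤ m`, let `σ` be a complex embedding of the number field `K`, and let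
`L_e = ∑_j c_{e,j} x_j - a_e`, `0 ≤ e ≤ m`, be affine forms in `n + 1` variables with integral
coefficients in `K`, such that all determinants `det (c_{T_i,j})` of `n + 1` different forms are
units (of the ring of algebraic integers) and no `n + 2` of the forms have a common zero over `K`.
There is a constant `C` such that for all algebraic integers `λ` of `K` with `|σ λ| ≥ C` the
coordinate ring of the affine hypersurface `F = Y z² + Y (y_1 + ... + y_q - Φ) z + 1 = 0`,
`Y = y_1 ^ v_1 ... y_q ^ v_q`, `Φ = λ ∏_e L_e`, of dimension `n + 1 + q` (that is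
`z + y_1 + ... + y_q + 1/(z y_1 ^ v_1 ... y_q ^ v_q) = Φ`) is a domain; the hypersurface is smooth
at all its complex points over `σ` (the partial derivatives `∂F/∂z`, `∂F/∂y_k` and
`∂F/∂x_j = - Y z ∂Φ/∂x_j` do not vanish simultaneously); for all `n + 2` different forms `S` the
symbol `{z, u_1, ..., u_{n+1}, y_1, ..., y_q}`, `u_k = γ_k L_{S_k} / (γ_0 L_{S_0})`, on the open part
`Φ ≠ 0` is unramified at all discrete valuations of the function field, where `γ_k` is `(-1)^k`
times the determinant of the linear parts of the forms `S` without `S_k`; and there are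
`binom(m, n + 1)` tori of dimension `n + 1 + q` in the complex points (over `σ`) of the open part,
such that the determinant of the regulators on the tori of the symbols of the
`S = (0, t_0, ..., t_n)` with `1 ≤ t_0 < ... < t_n ≤ m` does not vanish. -/
theorem result.{u, v} (n m q : ℕ) (w : Fin (q + 1) → ℕ) (hm : n + 1 ≤ m) (K : Type u) [Field K]
    [NumberField K] (σ : K →+* ℂ) (c : Fin (m + 1) → Fin (n + 1) → K) (a : Fin (m + 1) → K)
    (hA : Unimod c a)
    (hgen : ∀ S : Fin (n + 2) → Fin (m + 1), Function.Injective S → ∀ x : Fin (n + 1) → K,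
      ∃ i, ∑ j, c (S i) j * x j ≠ a (S i)) :
    ∃ C : ℝ, ∀ lam : K, IsIntegral ℤ lam → C ≤ ‖σ lam‖ →
      IsDomain (SRing w lam c a) ∧ SmoothPts w σ lam c a ∧ UnramSymb.{u, v} w lam c a ∧
        IndepReg w σ lam c a := by
  obtain ⟨c1, hc1, h⟩ := exists_tori (a := a) w σ hA.det_ne hgen
  obtain ⟨c2, h2⟩ := exists_smoothPts (a := a) w σ hA.det_ne hgen hm
  have hrow : ∀ e, c e ≠ 0 := Pool.Agent.TH826.DC.row_ne_zero hA.det_ne (by omega)
  refine ⟨max c1 c2, fun lam hlam hl => ?_⟩
  have hl1 : c1 ≤ ‖σ lam‖ := (le_max_left _ _).trans hl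
  have hl0 : lam ≠ 0 := by
    intro h0
    rw [h0, map_zero, norm_zero] at hl1
    linarith
  exact ⟨isDomain_SRing hrow hl0, h2 lam ((le_max_right _ _).trans hl),
    unramSymb w hA hrow hlam hl0, h lam hl1⟩

end Pool.Agent.Results.MP_15b3df_nt.SimplexFibrations
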