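import Pool.Agent.TH826.SX.Final
import Pool.Agent.TH826.SX.Smooth
set_option autoImplicit false

/-!
Beilinson's conjecture on regulators in weight `d = dim X + 1`, for `i = dim X`: on the
hypersurfaces `λ ∏_k ∏_i (x_k - a_{k,i}) = 1` in the hyperplane `x_0 + ... + x_{n+1} = 0`
(hypersurfaces of degree `∑ m_k` in projective space, `m_k` the number of the `a_{k,i}`),
`∏ m_k - ∏ (m_k - 1)` unramified classes in Milnor K-theory with linearly independent regulators,
for all large integers `λ`.
-/

namespace Pool.Agent.Results.MP_15b3df_nt.SimplexHypersurfaces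

open Pool.Agent.TH826.MK (KQ symb Unramified Torus)

open Pool.Agent.TH826.MH (eqn)

open Pool.Agent.TH826.SX

/-- Let `n ≥ 1` and `r_0, ..., r_{n+1}`, let `σ` be a complex embedding of the number field `K` and
for each `k ≤ n + 1` let `a_{k,0}, ..., a_{k,r_k}` be distinct algebraic integers of `K`, such that
no sum `∑_k a_{k,i_k}` vanishes. There is a constant `c` such that for all algebraic integers `λ` of
`K` with `|σ λ| ≥ c` the coordinate ring of the `n`-dimensional variety
`λ ∏_k ∏_i (x_k - a_{k,i}) = 1`, `∑_k x_k = 0` is a domain; the variety is smooth (the gradients of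
the two equations are linearly independent at the complex points over `σ`); the symbols
`{u_1, ..., u_{n+1}}`, `u_k = (x_k - a_{k,i_k}) / (x_0 - a_{0,i_0})`, are unramified at all
discrete valuations of the function field; and there are tori of dimension `n` in the complex points
(over `σ`) of the variety, as many as there are multi-indices `(i_k)` with at least one `i_k = 0`,
such that the determinant of the regulators of the symbols with these multi-indices on the tori does
not vanish. -/
theorem result (n : ℕ) (hn : 1 ≤ n) (r : Fin (n + 2) → ℕ) (K : Type*) [Field K] [NumberField K]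
    (σ : K →+* ℂ) (a : ∀ k, Fin (r k + 1) → K) (ha : ∀ k i, IsIntegral ℤ (a k i))
    (hinj : ∀ k, Function.Injective (a k))
    (hgen : ∀ i : ∀ k, Fin (r k + 1), ∑ k, a k (i k) ≠ 0) :
    ∃ c : ℝ, ∀ lam : K, IsIntegral ℤ lam → c ≤ ‖σ lam‖ →
      IsDomain (SRing lam a) ∧
      (∀ x : Fin (n + 2) → ℂ, ∑ k, x k = 0 → MvPolynomial.eval₂ σ x (eqn lam a) = 0 →
        ∃ k l, MvPolynomial.eval₂ σ x (MvPolynomial.pderiv k (eqn lam a)) ≠
          MvPolynomial.eval₂ σ x (MvPolynomial.pderiv l (eqn lam a))) ∧
      (∀ (L : Type*) [Field L] [Algebra (SRing lam a) L] [IsFractionRing (SRing lam a) L],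
        ∀ i : (∀ k, Fin (r k + 1)),
          KQ.map (n + 1) (algebraMap (SRing lam a) L) (symb (sent lam a i)) ∈
            Unramified L (n + 1)) ∧
      ∃ Γ : {i : ∀ k, Fin (r k + 1) // ∃ k, i k = 0} → Torus (SRing lam a) n,
        (∀ t θ (x : K), (Γ t).e θ (spol lam a (MvPolynomial.C x)) = σ x) ∧
        (Matrix.of fun t i : {i : ∀ k, Fin (r k + 1) // ∃ k, i k = 0} =>
          (Γ t).reg (symb (sent lam a i.1))).det ≠ 0 := by
  obtain ⟨m, rfl⟩ : ∃ m, n = m + 1 := ⟨n - 1, by omega⟩
  obtain ⟨c1, hc1, h⟩ := exists_tori σ a hinj hgen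
  obtain ⟨c2, h2⟩ := exists_smooth σ a hinj hgen
  refine ⟨max c1 c2, fun lam hlam hl => ?_⟩
  have hl1 : c1 ≤ ‖σ lam‖ := (le_max_left _ _).trans hl
  have hl0 : lam ≠ 0 := by
    intro h0
    rw [h0, map_zero, norm_zero] at hl1
    linarith
  exact ⟨isDomain_SRing lam a hl0 hinj, h2 lam ((le_max_right _ _).trans hl),
    fun L _ _ _ i => symb_mem_unramified (algebraMap (SRing lam a) L) hlam ha i, h lam hl1⟩

end Pool.Agent.Results.MP_15b3df_nt.SimplexHypersurfaces
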