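import Pool.Agent.TH826.UM.FBTori
set_option autoImplicit false

/-!
Unramified classes with independent regulators in the Milnor K-theory of fibrations over products
of lines, with explicit constants: on the varieties
`z + y_1 + ... + y_q + 1/(z y_1 ^ v_1 ... y_q ^ v_q) = λ ∏_k ∏_{0 ≤ i ≤ m_k} (x_k - a_{k,i})` of
dimension `n + q` over a number field, for example over `ℚ`, where `n ≥ 1`, `q ≥ 0`, `v_i ≥ 1`,
there are `m_1 ... m_n` unramified classes with linearly independent regulators, as soon as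
`|a_{k,i} - a_{k,j}| ≥ 3 δ_k` for all `k` and `i ≠ j` and
`|λ| ∏_k δ_k ^ (m_k + 1) ≥ 2 + v_1 + ... + v_q`.  For `v_i = 1` the fibres over the `x`-space
are the members of the pencil `z + y_1 + ... + y_q + 1/(z y_1 ... y_q) = t` of Calabi-Yau varieties
of dimension `q` (points, elliptic curves, K3 surfaces, ...) mirror to the Dwork pencil, and
`m_1 ... m_n` is the geometric genus.
-/

namespace Pool.Agent.Results.MP_15b3df_nt.UniformFibrations

open Pool.Agent.TH690.PF (PRing mPhi mPhi_ne_C isDomain_PRing SmoothPts UnramSymb IndepReg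
  unramSymb)

/-- Let `n ≥ 1` (below `n + 1` is written for `n`), let `q ≥ 0`, let `v_i = w_i + 1 ≥ 1`,
`i = 1, ..., q`, and `m_1, ..., m_n ≥ 0` be integers, let `σ` be a complex embedding of the number
field `K`, and let `λ` and `a_{k,i}`, `1 ≤ k ≤ n`, `0 ≤ i ≤ m_k`, be algebraic integers of `K` and
`δ_k > 0` real numbers with `|σ(a_{k,i}) - σ(a_{k,j})| ≥ 3 δ_k` for all `k` and `i ≠ j`, and
`|σ(λ)| ∏_k δ_k ^ (m_k + 1) ≥ 2 + v_1 + ... + v_q`. Then the coordinate ring of the affine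
hypersurface `F = Y z² + Y (y_1 + ... + y_q - Φ) z + 1 = 0`, `Y = y_1 ^ v_1 ... y_q ^ v_q`,
`Φ = λ ∏_k ∏_i (x_k - a_{k,i})`, of dimension `n + q` (that is
`z + y_1 + ... + y_q + 1/(z y_1 ^ v_1 ... y_q ^ v_q) = Φ`) is a domain; the hypersurface is smooth
at all its complex points over `σ` (the partial derivatives `∂F/∂z`, `∂F/∂y_k` and
`∂F/∂x_j = - Y z ∂Φ/∂x_j` do not vanish simultaneously); for all `i = (i_1, ..., i_n)` with
`1 ≤ i_k ≤ m_k` the symbol `{z, (x_1 - a_{1,i_1})/(x_1 - a_{1,0}), ...,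
(x_n - a_{n,i_n})/(x_n - a_{n,0}), y_1, ..., y_q}` on the open part `Φ ≠ 0` is unramified at all
discrete valuations of the function field; and there are `m_1 ... m_n` tori of dimension `n + q` in
the complex points (over `σ`) of the open part, such that the determinant of the regulators on the
tori of these `m_1 ... m_n` symbols does not vanish. -/
theorem result.{u, v} (n q : ℕ) (w : Fin q → ℕ) (m : Fin (n + 1) → ℕ) (K : Type u) [Field K]
    [NumberField K] (σ : K →+* ℂ) (lam : K) (hlam : IsIntegral ℤ lam)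
    (a : (k : Fin (n + 1)) → Fin (m k + 1) → K) (hint : ∀ k i, IsIntegral ℤ (a k i))
    (δ : Fin (n + 1) → ℝ) (hδ : ∀ k, 0 < δ k)
    (hsep : ∀ k i j, i ≠ j → 3 * δ k ≤ ‖σ (a k i) - σ (a k j)‖)
    (h : 2 + ∑ i, ((w i : ℝ) + 1) ≤ ‖σ lam‖ * ∏ k, δ k ^ (m k + 1)) :
    IsDomain (PRing w (mPhi lam a)) ∧ SmoothPts w σ (mPhi lam a) ∧
      UnramSymb.{u, v} w lam a ∧ IndepReg w σ lam a := by
  have hw : (q : ℝ) ≤ ∑ i, ((w i : ℝ) + 1) := by
    rw [Finset.sum_add_distrib, Finset.sum_const, Finset.card_univ, Fintype.card_fin,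
      nsmul_eq_mul, mul_one]
    have : 0 ≤ ∑ i, (w i : ℝ) := Finset.sum_nonneg fun i _ => Nat.cast_nonneg _
    linarith
  have hq : (0 : ℝ) ≤ q := Nat.cast_nonneg q
  have hl0 : lam ≠ 0 := by
    intro h0
    rw [h0, map_zero, norm_zero, zero_mul] at h
    linarith
  refine ⟨isDomain_PRing (mPhi_ne_C lam a (Nat.succ_pos _) hl0),
    Pool.Agent.TH826.UM.smoothPts (Nat.succ_pos _) w σ hδ hsep ?_,
    unramSymb w (Nat.succ_pos _) hint hlam hl0,
    Pool.Agent.TH826.UM.indepReg (Nat.succ_pos _) w hδ hsep (by linarith)⟩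
  push_cast
  linarith

end Pool.Agent.Results.MP_15b3df_nt.UniformFibrations
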